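import Mathlib
import Pool.Agent.H294R2.BF.Cube

/-!
# Sets with a small additive complement in `𝔽₂ⁿ` (helper168, for MP_6fec45_co)
-/

set_option autoImplicit false

namespace Pool.Agent.H168R4.AC

open Pointwise Module

/-- The space `𝔽₂ⁿ`. -/
abbrev F2 (n : ℕ) : Type := Fin n → ZMod 2

/-- The number of nonzero coordinates of `x` in the basis `b`. -/
noncomputable def weight {n : ℕ} (b : Basis (Fin n) (ZMod 2) (F2 n)) (x : F2 n) : ℕ :=
  (Finset.univ.filter (fun i => b.repr x i ≠ 0)).card

/-- `D` is downward closed in the basis `b`: changing nonzero coordinates of an element of `D` to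
zero gives an element of `D`. -/
def DownClosed {n : ℕ} (b : Basis (Fin n) (ZMod 2) (F2 n)) (D : Set (F2 n)) : Prop :=
  ∀ x ∈ D, ∀ y : F2 n, (∀ i, b.repr y i ≠ 0 → b.repr x i ≠ 0) → y ∈ D

/-- the vector of a Boolean pattern -/
noncomputable def vec {n : ℕ} (b : Basis (Fin n) (ZMod 2) (F2 n)) (y : Fin n → Bool) : F2 n :=
  ∑ i, (if y i then (1 : ZMod 2) else 0) • b i

theorem repr_vec {n : ℕ} (b : Basis (Fin n) (ZMod 2) (F2 n)) (y : Fin n → Bool) (i : Fin n) :
    b.repr (vec b y) i = if y i then (1 : ZMod 2) else 0 := by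
  unfold vec
  rw [b.repr_sum_self]

theorem repr_vec_add {n : ℕ} (b : Basis (Fin n) (ZMod 2) (F2 n)) (y z : Fin n → Bool) (i : Fin n) :
    b.repr (vec b y + vec b z) i ≠ 0 ↔ y i ≠ z i := by
  rw [map_add, Finsupp.add_apply, repr_vec, repr_vec]
  cases y i <;> cases z i <;> decide

theorem long_vector {n : ℕ} (b : Basis (Fin n) (ZMod 2) (F2 n)) (A : Set (F2 n))
    (S : Finset (F2 n)) (hAS : A + (S : Set (F2 n)) = Set.univ) :
    ∃ x ∈ A + A, n + 1 ≤ weight b x + S.card := by
  classical
  by_contra hcon
  push Not at hcon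
  have hS : S.Nonempty := by
    have h0 : (0 : F2 n) ∈ A + (S : Set (F2 n)) := by rw [hAS]; trivial
    obtain ⟨a, _, s, hs, _⟩ := h0
    exact ⟨s, hs⟩
  have hcol : ∀ y : Fin n → Bool, ∃ s : S, vec b y + (s : F2 n) ∈ A := by
    intro y
    have h0 : vec b y ∈ A + (S : Set (F2 n)) := by rw [hAS]; trivial
    obtain ⟨a, ha, s, hs, has⟩ := h0
    refine ⟨⟨s, hs⟩, ?_⟩
    have has' : a + s = vec b y := has
    have h1 : vec b y + s = a := by
      rw [← has', add_assoc]
      have h2 : s + s = 0 := by
        funext i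
        exact CharTwo.add_self_eq_zero (s i)
      rw [h2, add_zero]
    rw [h1]
    exact ha
  choose c' hc' using hcol
  let c : (Fin n → Bool) → Fin S.card := fun y => S.equivFin (c' y)
  have hsame : ∀ y z, c y = c z → vec b y + vec b z ∈ A + A := by
    intro y z h
    have h1 : c' y = c' z := S.equivFin.injective h
    refine ⟨vec b y + (c' y : F2 n), hc' y, vec b z + (c' z : F2 n), hc' z, ?_⟩
    rw [h1]
    show vec b y + (c' z : F2 n) + (vec b z + (c' z : F2 n)) = vec b y + vec b z
    have h2 : (c' z : F2 n) + (c' z : F2 n) = 0 := by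
      funext i
      exact CharTwo.add_self_eq_zero ((c' z : F2 n) i)
    calc vec b y + (c' z : F2 n) + (vec b z + (c' z : F2 n))
        = vec b y + vec b z + ((c' z : F2 n) + (c' z : F2 n)) := by abel
      _ = vec b y + vec b z := by rw [h2, add_zero]
  have hKpos : 0 < S.card := hS.card_pos
  -- antipodal points have different colours
  have hanti : ∀ y : Fin n → Bool, c y ≠ c (fun j => !y j) := by
    intro y h
    have h1 := hcon _ (hsame _ _ h)
    have h2 : weight b (vec b y + vec b (fun j => !y j)) = n := by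
      unfold weight
      rw [Finset.filter_true_of_mem]
      · simp
      · intro i _
        rw [repr_vec_add]
        cases y i <;> simp
    omega
  let L : (Fin n → Bool) → Fin S.card × Bool := fun y =>
    if c y < c (fun j => !y j) then (c y, true) else (c (fun j => !y j), false)
  have hL : ∀ x, L (fun j => !x j) = ((L x).1, !(L x).2) := by
    intro x
    have hinv : (fun j => !(fun j => !x j) j) = x := by
      funext j
      simp
    have hne := hanti x
    show (if c (fun j => !x j) < c (fun j => !(fun j => !x j) j) then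
        (c (fun j => !x j), true) else (c (fun j => !(fun j => !x j) j), false)) = _
    rw [hinv]
    show _ = ((if c x < c (fun j => !x j) then (c x, true) else (c (fun j => !x j), false)).1,
      !(if c x < c (fun j => !x j) then (c x, true) else (c (fun j => !x j), false)).2)
    rcases lt_or_gt_of_ne hne with h | h
    · rw [if_pos h, if_neg (not_lt.2 h.le)]
      rfl
    · rw [if_neg (not_lt.2 h.le), if_pos h]
      rfl
  obtain ⟨T, x, P, hT, hTP, hP⟩ := H294BF.cube_tucker L hL
  -- all labels of `P` are below the last colour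
  have hPcard : P.card ≤ S.card - 1 := by
    have h1 : P.image (fun i : Fin S.card => (i : ℕ)) ⊆ Finset.range (S.card - 1) := by
      intro k hk
      rw [Finset.mem_image] at hk
      obtain ⟨i, hi, rfl⟩ := hk
      obtain ⟨⟨y, hy, hLy⟩, _⟩ := hP i hi
      have h2 : i < c (fun j => !y j) := by
        by_cases h : c y < c (fun j => !y j)
        · have h3 : L y = (c y, true) := if_pos h
          rw [h3] at hLy
          have h4 : c y = i := congrArg Prod.fst hLy
          rw [← h4]
          exact h
        · have h3 : L y = (c (fun j => !y j), false) := if_neg h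
          rw [h3] at hLy
          have h4 : false = true := congrArg Prod.snd hLy
          exact absurd h4 (by simp)
      have h5 : (i : ℕ) < (c (fun j => !y j) : ℕ) := h2
      have h6 := (c (fun j => !y j)).2
      rw [Finset.mem_range]
      omega
    have h2 := Finset.card_le_card h1
    rw [Finset.card_image_of_injective _ Fin.val_injective, Finset.card_range] at h2
    exact h2
  have hPne : P.Nonempty := by
    rw [← Finset.card_pos]
    exact lt_of_lt_of_le hT.card_pos hTP
  obtain ⟨i, hi⟩ := hPne
  obtain ⟨⟨y, hy, hLy⟩, ⟨z, hz, hLz⟩⟩ := hP i hi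
  have hcy : c y = i := by
    by_cases h : c y < c (fun j => !y j)
    · have h3 : L y = (c y, true) := if_pos h
      rw [h3] at hLy
      exact congrArg Prod.fst hLy
    · have h3 : L y = (c (fun j => !y j), false) := if_neg h
      rw [h3] at hLy
      have h4 : false = true := congrArg Prod.snd hLy
      exact absurd h4 (by simp)
  have hcz : c (fun j => !z j) = i := by
    by_cases h : c z < c (fun j => !z j)
    · have h3 : L z = (c z, true) := if_pos h
      rw [h3] at hLz
      have h4 : true = false := congrArg Prod.snd hLz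
      exact absurd h4 (by simp)
    · have h3 : L z = (c (fun j => !z j), false) := if_neg h
      rw [h3] at hLz
      exact congrArg Prod.fst hLz
  have hmem := hsame y (fun j => !z j) (hcy.trans hcz.symm)
  have hlt := hcon _ hmem
  have hw : n - T.card ≤ weight b (vec b y + vec b (fun j => !z j)) := by
    have h1 : Tᶜ ⊆ Finset.univ.filter
        (fun i => b.repr (vec b y + vec b (fun j => !z j)) i ≠ 0) := by
      intro j hj
      rw [Finset.mem_compl] at hj
      rw [Finset.mem_filter]
      refine ⟨Finset.mem_univ _, ?_⟩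
      rw [repr_vec_add, hy j hj, hz j hj]
      cases x j <;> simp
    have h2 := Finset.card_le_card h1
    rw [Finset.card_compl, Fintype.card_fin] at h2
    exact h2
  omega

/-- The subspace of the vectors supported on the support of `x`. -/
theorem exists_sub {n : ℕ} (b : Basis (Fin n) (ZMod 2) (F2 n)) (D : Set (F2 n))
    (hD : DownClosed b D) (x : F2 n) (hx : x ∈ D) :
    ∃ W : Submodule (ZMod 2) (F2 n), (W : Set (F2 n)) ⊆ D ∧
      Module.finrank (ZMod 2) W = weight b x := by
  classical
  refine ⟨Submodule.span (ZMod 2) (b '' {i | b.repr x i ≠ 0}), ?_, ?_⟩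
  · intro y hy
    have h1 : y ∈ Submodule.span (ZMod 2) (b '' {i | b.repr x i ≠ 0}) := hy
    rw [b.mem_span_image] at h1
    refine hD x hx y fun i hi => ?_
    exact h1 (Finsupp.mem_support_iff.2 hi)
  · have h1 : b '' {i | b.repr x i ≠ 0} =
        ((Finset.univ.filter (fun i => b.repr x i ≠ 0)).image b : Set (F2 n)) := by
      ext v
      simp
    rw [h1, finrank_span_finset_eq_card, Finset.card_image_of_injective _ b.injective]
    · rfl
    · rw [← h1]
      exact b.linearIndependent.linearIndepOn_id.mono (Set.image_subset_range _ _)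

theorem sum_down {n : ℕ} (b : Basis (Fin n) (ZMod 2) (F2 n)) (D : Set (F2 n))
    (hD : DownClosed b D) : DownClosed b (D + D) := by
  classical
  rintro x ⟨d, hd, d', hd', hdd⟩ y hy
  have hdd' : d + d' = x := hdd
  refine ⟨b.repr.symm ((b.repr y).filter (fun i => b.repr d i ≠ 0)), ?_,
    b.repr.symm ((b.repr y).filter (fun i => ¬ b.repr d i ≠ 0)), ?_, ?_⟩
  · refine hD d hd _ fun i hi => ?_
    rw [LinearEquiv.apply_symm_apply] at hi
    rcases eq_or_ne (b.repr d i) 0 with h | h
    · rw [Finsupp.filter_apply_neg (fun i => b.repr d i ≠ 0) _ (not_not.2 h)] at hi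
      exact absurd rfl hi
    · exact h
  · refine hD d' hd' _ fun i hi => ?_
    rw [LinearEquiv.apply_symm_apply] at hi
    by_cases h : ¬ b.repr d i ≠ 0
    · rw [Finsupp.filter_apply_pos (fun i => ¬ b.repr d i ≠ 0) _ h] at hi
      have h1 := hy i hi
      rw [← hdd', map_add, Finsupp.add_apply] at h1
      push Not at h
      rw [h, zero_add] at h1
      exact h1
    · rw [Finsupp.filter_apply_neg (fun i => ¬ b.repr d i ≠ 0) _ h] at hi
      exact absurd rfl hi
  · show b.repr.symm _ + b.repr.symm _ = y
    rw [← map_add, Finsupp.filter_add_filter_not, LinearEquiv.symm_apply_apply]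

/-! ### Symmetric sets -/

theorem balanced {n : ℕ} {ι : Type*} [DecidableEq ι] (S : Finset ι) (F : ι → Finset (Fin n)) :
    ∃ Y : Finset (Fin n), ∀ s ∈ S, n ≤ 2 * (symmDiff Y (F s)).card + 2 ^ S.card ∧
      2 * (symmDiff Y (F s)).card ≤ n + 2 ^ S.card := by
  classical
  let τ : Fin n → Finset ι := fun i => S.filter (fun s => i ∈ F s)
  let C : Finset ι → Finset (Fin n) := fun T => Finset.univ.filter (fun i => τ i = T)
  have hex : ∀ T : Finset ι, ∃ t ⊆ C T, t.card = (C T).card / 2 := fun T =>
    Finset.exists_subset_card_eq (Nat.div_le_self _ _)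
  choose f hf hfc using hex
  refine ⟨Finset.univ.filter (fun i => i ∈ f (τ i)), fun s hs => ?_⟩
  set Y := Finset.univ.filter (fun i => i ∈ f (τ i)) with hY
  have hfC : ∀ T i, i ∈ f T → τ i = T := fun T i hi => (Finset.mem_filter.1 (hf T hi)).2
  have key : ∀ T ∈ S.powerset,
      (C T).card ≤ 2 * ((symmDiff Y (F s)).filter (fun i => τ i = T)).card + 1 ∧
      2 * ((symmDiff Y (F s)).filter (fun i => τ i = T)).card ≤ (C T).card + 1 := by
    intro T _
    by_cases hsT : s ∈ T
    · have h1 : (symmDiff Y (F s)).filter (fun i => τ i = T) = C T \ f T := by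
        ext i
        simp only [Finset.mem_filter, Finset.mem_symmDiff, Finset.mem_sdiff, C, hY,
          Finset.mem_univ, true_and]
        constructor
        · rintro ⟨h, hT⟩
          refine ⟨hT, ?_⟩
          have hi : i ∈ F s := by
            have : s ∈ τ i := by rw [hT]; exact hsT
            exact (Finset.mem_filter.1 this).2
          rcases h with ⟨_, h2⟩ | ⟨_, h2⟩
          · exact absurd hi h2
          · rw [hT] at h2
            exact h2
        · rintro ⟨hT, h2⟩
          have hi : i ∈ F s := by
            have : s ∈ τ i := by rw [hT]; exact hsT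
            exact (Finset.mem_filter.1 this).2
          refine ⟨Or.inr ⟨hi, ?_⟩, hT⟩
          rw [hT]
          exact h2
      rw [h1, Finset.card_sdiff_of_subset (hf T), hfc]
      omega
    · have h1 : (symmDiff Y (F s)).filter (fun i => τ i = T) = f T := by
        ext i
        simp only [Finset.mem_filter, Finset.mem_symmDiff, hY, Finset.mem_univ, true_and]
        constructor
        · rintro ⟨h, hT⟩
          have hi : i ∉ F s := by
            intro hi
            apply hsT
            rw [← hT]
            exact Finset.mem_filter.2 ⟨hs, hi⟩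
          rcases h with ⟨h2, _⟩ | ⟨h2, _⟩
          · rw [hT] at h2
            exact h2
          · exact absurd h2 hi
        · intro h2
          have hT := hfC T i h2
          have hi : i ∉ F s := by
            intro hi
            apply hsT
            rw [← hT]
            exact Finset.mem_filter.2 ⟨hs, hi⟩
          refine ⟨Or.inl ⟨?_, hi⟩, hT⟩
          rw [hT]
          exact h2
      rw [h1, hfc]
      omega
  have hmaps : ∀ i : Fin n, τ i ∈ S.powerset := fun i =>
    Finset.mem_powerset.2 (Finset.filter_subset _ _)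
  have hn : n = ∑ T ∈ S.powerset, (C T).card := by
    have h1 := Finset.card_eq_sum_card_fiberwise (s := (Finset.univ : Finset (Fin n))) (f := τ)
      (t := S.powerset) (fun i _ => hmaps i)
    rw [Finset.card_univ, Fintype.card_fin] at h1
    exact h1
  have hZ : (symmDiff Y (F s)).card =
      ∑ T ∈ S.powerset, ((symmDiff Y (F s)).filter (fun i => τ i = T)).card :=
    Finset.card_eq_sum_card_fiberwise (f := τ) (fun i _ => hmaps i)
  have h2K : ∑ _T ∈ S.powerset, 1 = 2 ^ S.card := by
    rw [Finset.sum_const, Finset.card_powerset, smul_eq_mul, mul_one]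
  constructor
  · calc n = ∑ T ∈ S.powerset, (C T).card := hn
      _ ≤ ∑ T ∈ S.powerset,
          (2 * ((symmDiff Y (F s)).filter (fun i => τ i = T)).card + 1) :=
        Finset.sum_le_sum fun T hT => (key T hT).1
      _ = 2 * (symmDiff Y (F s)).card + 2 ^ S.card := by
        rw [Finset.sum_add_distrib, ← Finset.mul_sum, ← hZ, h2K]
  · calc 2 * (symmDiff Y (F s)).card
        = ∑ T ∈ S.powerset, 2 * ((symmDiff Y (F s)).filter (fun i => τ i = T)).card := by
          rw [← Finset.mul_sum, ← hZ]
      _ ≤ ∑ T ∈ S.powerset, ((C T).card + 1) := Finset.sum_le_sum fun T hT => (key T hT).2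
      _ = n + 2 ^ S.card := by
        rw [Finset.sum_add_distrib, h2K, ← hn]

/-- the support -/
noncomputable def supp {n : ℕ} (b : Basis (Fin n) (ZMod 2) (F2 n)) (x : F2 n) : Finset (Fin n) :=
  Finset.univ.filter (fun i => b.repr x i ≠ 0)

theorem mem_supp {n : ℕ} (b : Basis (Fin n) (ZMod 2) (F2 n)) (x : F2 n) (i : Fin n) :
    i ∈ supp b x ↔ b.repr x i ≠ 0 := by simp [supp]

/-- the vector with support `Y` -/
noncomputable def vs {n : ℕ} (b : Basis (Fin n) (ZMod 2) (F2 n)) (Y : Finset (Fin n)) : F2 n :=
  ∑ i, (if i ∈ Y then (1 : ZMod 2) else 0) • b i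

theorem repr_vs {n : ℕ} (b : Basis (Fin n) (ZMod 2) (F2 n)) (Y : Finset (Fin n)) (i : Fin n) :
    b.repr (vs b Y) i = if i ∈ Y then (1 : ZMod 2) else 0 := by
  unfold vs
  rw [b.repr_sum_self]

theorem supp_vs {n : ℕ} (b : Basis (Fin n) (ZMod 2) (F2 n)) (Y : Finset (Fin n)) :
    supp b (vs b Y) = Y := by
  ext i
  rw [mem_supp, repr_vs]
  by_cases h : i ∈ Y <;> simp [h]

theorem eq_of_supp {n : ℕ} (b : Basis (Fin n) (ZMod 2) (F2 n)) (x y : F2 n)
    (h : supp b x = supp b y) : x = y := by
  have hz : ∀ u v : ZMod 2, (u ≠ 0 ↔ v ≠ 0) → u = v := by decide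
  refine b.ext_elem fun i => hz _ _ ?_
  rw [← mem_supp, ← mem_supp, h]

theorem supp_add {n : ℕ} (b : Basis (Fin n) (ZMod 2) (F2 n)) (x y : F2 n) :
    supp b (x + y) = symmDiff (supp b x) (supp b y) := by
  have hz : ∀ u v : ZMod 2, u + v ≠ 0 ↔ (u ≠ 0 ∧ ¬ v ≠ 0) ∨ (v ≠ 0 ∧ ¬ u ≠ 0) := by decide
  ext i
  rw [Finset.mem_symmDiff, mem_supp, mem_supp, mem_supp, map_add, Finsupp.add_apply]
  exact hz _ _

theorem symmetric_case {n : ℕ} (b : Basis (Fin n) (ZMod 2) (F2 n)) (A : Set (F2 n))
    (S : Finset (F2 n)) (hAS : A + (S : Set (F2 n)) = Set.univ)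
    (hA : ∀ x ∈ A, ∀ y : F2 n, weight b y = weight b x → y ∈ A) :
    ∃ W : Submodule (ZMod 2) (F2 n), (W : Set (F2 n)) ⊆ A + A ∧
      n ≤ Module.finrank (ZMod 2) W + 2 ^ S.card + 1 := by
  classical
  obtain ⟨Y, hY⟩ := balanced S (fun s => supp b s)
  have h0 : vs b Y ∈ A + (S : Set (F2 n)) := by rw [hAS]; trivial
  obtain ⟨a, ha, s, hs, has⟩ := h0
  have has' : a + s = vs b Y := has
  have hsa : supp b a = symmDiff Y (supp b s) := by
    have h1 : a = vs b Y + s := by
      rw [← has', add_assoc]
      have h2 : s + s = 0 := by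
        funext i
        exact CharTwo.add_self_eq_zero (s i)
      rw [h2, add_zero]
    rw [h1, supp_add, supp_vs]
  obtain ⟨hk1, hk2⟩ := hY s hs
  set k := (supp b a).card with hk
  rw [← hsa, ← hk] at hk1 hk2
  have hkn : k ≤ n := by
    have := Finset.card_le_univ (supp b a)
    rwa [Fintype.card_fin] at this
  -- small even vectors are in `A + A`
  have hsmall : ∀ (x : F2 n) (j : ℕ), (supp b x).card = 2 * j → j ≤ k → j + k ≤ n → x ∈ A + A := by
    intro x j hx hjk hjn
    obtain ⟨a1, ha1, hc1⟩ := Finset.exists_subset_card_eq (s := supp b x) (n := j) (by omega)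
    obtain ⟨a2, ha2, hc2⟩ := Finset.exists_subset_card_eq (s := (supp b x)ᶜ) (n := k - j) (by
      rw [Finset.card_compl, Fintype.card_fin]
      omega)
    have hdis : Disjoint a1 a2 := by
      rw [Finset.disjoint_left]
      intro i h1 h2
      exact (Finset.mem_compl.1 (ha2 h2)) (ha1 h1)
    have hdis' : Disjoint (supp b x \ a1) a2 := by
      rw [Finset.disjoint_left]
      intro i h1 h2
      exact (Finset.mem_compl.1 (ha2 h2)) (Finset.mem_sdiff.1 h1).1
    refine ⟨vs b (a1 ∪ a2), hA a ha _ ?_, vs b ((supp b x \ a1) ∪ a2), hA a ha _ ?_, ?_⟩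
    · show (supp b (vs b (a1 ∪ a2))).card = (supp b a).card
      rw [supp_vs, Finset.card_union_of_disjoint hdis]
      omega
    · show (supp b (vs b ((supp b x \ a1) ∪ a2))).card = (supp b a).card
      rw [supp_vs, Finset.card_union_of_disjoint hdis', Finset.card_sdiff_of_subset ha1]
      omega
    · show vs b (a1 ∪ a2) + vs b ((supp b x \ a1) ∪ a2) = x
      apply eq_of_supp b
      rw [supp_add, supp_vs, supp_vs]
      ext i
      have h1 : i ∈ a1 → i ∈ supp b x := fun h => ha1 h
      have h2 : i ∈ a2 → i ∉ supp b x := fun h => Finset.mem_compl.1 (ha2 h)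
      simp only [Finset.mem_symmDiff, Finset.mem_union, Finset.mem_sdiff]
      tauto
  -- the subspace
  set m := min (2 * k) (2 * (n - k)) with hm
  have hmn : n ≤ m + 2 ^ S.card := by omega
  let φ : F2 n →ₗ[ZMod 2] ZMod 2 := ∑ i, b.coord i
  have hφ : ∀ x, φ x = (((supp b x).card : ℕ) : ZMod 2) := by
    intro x
    have h1 : φ x = ∑ i, b.repr x i := by
      simp [φ]
    have hz : ∀ u : ZMod 2, u = if u ≠ 0 then 1 else 0 := by decide
    rw [h1, supp, Finset.card_filter]
    push_cast
    exact Finset.sum_congr rfl fun i _ => hz _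
  let W0 : Submodule (ZMod 2) (F2 n) := Submodule.span (ZMod 2) (b '' {i : Fin n | (i : ℕ) < m})
  have hW0 : Module.finrank (ZMod 2) W0 = min m n := by
    have h1 : b '' {i : Fin n | (i : ℕ) < m} =
        ((Finset.univ.filter (fun i : Fin n => (i : ℕ) < m)).image b : Set (F2 n)) := by
      ext v
      simp
    show Module.finrank (ZMod 2) (Submodule.span (ZMod 2) (b '' {i : Fin n | (i : ℕ) < m})) = _
    rw [h1, finrank_span_finset_eq_card, Finset.card_image_of_injective _ b.injective]
    · rw [Fin.card_filter_val_lt, min_comm]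
    · rw [← h1]
      exact b.linearIndependent.linearIndepOn_id.mono (Set.image_subset_range _ _)
  refine ⟨W0 ⊓ LinearMap.ker φ, ?_, ?_⟩
  · rintro x ⟨hx0, hxk⟩
    have hx1 : x ∈ Submodule.span (ZMod 2) (b '' {i : Fin n | (i : ℕ) < m}) := hx0
    rw [b.mem_span_image] at hx1
    have hxm : (supp b x).card ≤ m := by
      have h1 : (supp b x).image (fun i : Fin n => (i : ℕ)) ⊆ Finset.range m := by
        intro t ht
        rw [Finset.mem_image] at ht
        obtain ⟨i, hi, rfl⟩ := ht
        exact Finset.mem_range.2 (hx1 (Finsupp.mem_support_iff.2 ((mem_supp b x i).1 hi)))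
      have h2 := Finset.card_le_card h1
      rwa [Finset.card_image_of_injective _ Fin.val_injective, Finset.card_range] at h2
    have hev : Even (supp b x).card := by
      have h1 : φ x = 0 := hxk
      rw [hφ, ZMod.natCast_eq_zero_iff_even] at h1
      exact h1
    obtain ⟨j, hj⟩ := hev
    exact hsmall x j (by omega) (by omega) (by omega)
  · have h1 := Submodule.finrank_sup_add_finrank_inf_eq W0 (LinearMap.ker φ)
    have h2 := LinearMap.finrank_range_add_finrank_ker φ
    have h3 : Module.finrank (ZMod 2) (LinearMap.range φ) ≤ 1 := by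
      have := Submodule.finrank_le (LinearMap.range φ)
      rwa [Module.finrank_self] at this
    have h4 : Module.finrank (ZMod 2) (F2 n) = n := by simp
    have h5 := Submodule.finrank_le (W0 ⊔ LinearMap.ker φ)
    rw [h4] at h2 h5
    rw [hW0] at h1
    omega

theorem self_add {n : ℕ} (t : F2 n) : t + t = 0 := by
  funext i
  exact CharTwo.add_self_eq_zero (t i)

theorem translate {n : ℕ} (A : Set (F2 n)) (t : F2 n) (D : Set (F2 n))
    (hA : A = (fun x => t + x) '' D) : A + A = D + D := by
  rw [hA]
  ext x
  constructor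
  · rintro ⟨_, ⟨d, hd, rfl⟩, _, ⟨d', hd', rfl⟩, rfl⟩
    refine ⟨d, hd, d', hd', ?_⟩
    show d + d' = t + d + (t + d')
    calc d + d' = (t + t) + (d + d') := by rw [self_add, zero_add]
      _ = t + d + (t + d') := by abel
  · rintro ⟨d, hd, d', hd', rfl⟩
    refine ⟨t + d, ⟨d, hd, rfl⟩, t + d', ⟨d', hd', rfl⟩, ?_⟩
    show t + d + (t + d') = d + d'
    calc t + d + (t + d') = (t + t) + (d + d') := by abel
      _ = d + d' := by rw [self_add, zero_add]

end Pool.Agent.H168R4.AC
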